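import Mathlib

/-!
A sequence of holomorphic maps from the polydisc `Δ^(n+1)` to the complex projective plane that is
equicontinuous on the Hartogs figure `H_n^1(r)` but not on the polydisc.
-/

set_option autoImplicit false

open Set Filter Topology
open scoped LinearAlgebra.Projectivization

namespace Pool.Agent.Results.MP_7ec995_an.HartogsEquicontinuity

/-- Homogeneous coordinates: the Hermitian space `ℂ³`. -/
abbrev C3 : Type := EuclideanSpace ℂ (Fin 3)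

/-- The complex projective plane. -/
abbrev P2 : Type := ℙ ℂ C3

/-- The Fubini–Study distance of the projective plane: the angle between two complex lines of
`ℂ³`. -/
noncomputable def fsDist (p q : P2) : ℝ :=
  Real.arccos (‖inner ℂ p.rep q.rep‖ / (‖p.rep‖ * ‖q.rep‖))

/-- `f` is a holomorphic map from (the points of) `U` to the projective plane: near every point of
`U` it is given by a holomorphic nowhere vanishing vector of homogeneous coordinates. -/
def IsHolomorphic {n : ℕ} (U : Set ((Fin n → ℂ) × ℂ)) (f : (Fin n → ℂ) × ℂ → P2) : Prop :=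
  ∀ p ∈ U, ∃ V ∈ 𝓝 p, ∃ F : (Fin n → ℂ) × ℂ → C3, DifferentiableOn ℂ F V ∧
    ∀ z ∈ V, ∃ h : F z ≠ 0, f z = Projectivization.mk ℂ (F z) h

/-- The sequence of maps `f` is equicontinuous on `U` for the Fubini–Study distance. -/
def IsEquicontinuous {n : ℕ} (U : Set ((Fin n → ℂ) × ℂ)) (f : ℕ → (Fin n → ℂ) × ℂ → P2) : Prop :=
  ∀ p ∈ U, ∀ ε : ℝ, 0 < ε → ∃ δ : ℝ, 0 < δ ∧
    ∀ j, ∀ z ∈ U, ‖z - p‖ < δ → fsDist (f j z) (f j p) < ε

/-- The unit polydisc `Δ^(n+1)`, written as `Δ^n × Δ`. -/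
def polydisc (n : ℕ) : Set ((Fin n → ℂ) × ℂ) := {p | (∀ i, ‖p.1 i‖ < 1) ∧ ‖p.2‖ < 1}

/-- The Hartogs figure `H_n^1(r) = Δ^n(1-r) × Δ ∪ Δ^n × A(r,1)`. -/
def hartogs (n : ℕ) (r : ℝ) : Set ((Fin n → ℂ) × ℂ) :=
  {p | (∀ i, ‖p.1 i‖ < 1 - r) ∧ ‖p.2‖ < 1} ∪ {p | (∀ i, ‖p.1 i‖ < 1) ∧ r < ‖p.2‖ ∧ ‖p.2‖ < 1}

theorem fsDist_mk (v w : C3) (hv : v ≠ 0) (hw : w ≠ 0) :
    fsDist (Projectivization.mk ℂ v hv) (Projectivization.mk ℂ w hw) =
      Real.arccos (‖inner ℂ v w‖ / (‖v‖ * ‖w‖)) := by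
  obtain ⟨a, ha⟩ := Projectivization.exists_smul_eq_mk_rep ℂ v hv
  obtain ⟨b, hb⟩ := Projectivization.exists_smul_eq_mk_rep ℂ w hw
  rw [fsDist, ← ha, ← hb]
  have ha0 : ‖(a : ℂ)‖ ≠ 0 := norm_ne_zero_iff.2 a.ne_zero
  have hb0 : ‖(b : ℂ)‖ ≠ 0 := norm_ne_zero_iff.2 b.ne_zero
  have hv0 : ‖v‖ ≠ 0 := norm_ne_zero_iff.2 hv
  have hw0 : ‖w‖ ≠ 0 := norm_ne_zero_iff.2 hw
  congr 1
  rw [Units.smul_def, Units.smul_def, inner_smul_left, inner_smul_right, norm_smul, norm_smul,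
    norm_mul, norm_mul, RCLike.norm_conj]
  field_simp

/-- The homogeneous coordinates `(z₀ - a, w, ε)`. -/
noncomputable def vec {n : ℕ} (i : Fin n) (a ε : ℝ) (p : (Fin n → ℂ) × ℂ) : C3 :=
  !₂[p.1 i - a, p.2, (ε : ℂ)]

theorem vec_ne_zero {n : ℕ} (i : Fin n) (a ε : ℝ) (hε : 0 < ε) (p : (Fin n → ℂ) × ℂ) :
    vec i a ε p ≠ 0 := by
  intro h
  have := congrArg (fun v : C3 => v 2) h
  simp [vec] at this
  exact hε.ne' this

theorem norm_sq_vec {n : ℕ} (i : Fin n) (a ε : ℝ) (p : (Fin n → ℂ) × ℂ) :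
    ‖vec i a ε p‖ ^ 2 = ‖p.1 i - a‖ ^ 2 + ‖p.2‖ ^ 2 + ε ^ 2 := by
  rw [EuclideanSpace.norm_sq_eq, Fin.sum_univ_three]
  simp [vec]

theorem norm_sub_vec {n : ℕ} (i : Fin n) (a ε : ℝ) (p q : (Fin n → ℂ) × ℂ) :
    ‖vec i a ε p - vec i a ε q‖ ^ 2 ≤ 2 * ‖p - q‖ ^ 2 := by
  rw [EuclideanSpace.norm_sq_eq, Fin.sum_univ_three]
  have h1 : ‖p.1 i - q.1 i‖ ≤ ‖p - q‖ :=
    (norm_le_pi_norm (p.1 - q.1) i).trans (norm_fst_le (p - q))
  have h2 : ‖p.2 - q.2‖ ≤ ‖p - q‖ := norm_snd_le (p - q)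
  have e1 : (vec i a ε p - vec i a ε q) 0 = p.1 i - q.1 i := by simp [vec]
  have e2 : (vec i a ε p - vec i a ε q) 1 = p.2 - q.2 := by simp [vec]
  have e3 : (vec i a ε p - vec i a ε q) 2 = 0 := by simp [vec]
  rw [e1, e2, e3, norm_zero]
  have := pow_le_pow_left₀ (norm_nonneg _) h1 2
  have := pow_le_pow_left₀ (norm_nonneg _) h2 2
  linarith

/-- Vectors that are close compared with their size span close lines. -/
theorem fsDist_lt {v w : C3} (hv : v ≠ 0) (hw : w ≠ 0) {ε : ℝ} (hε : 0 < ε) (hεπ : ε ≤ Real.pi)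
    (h : ‖v - w‖ ^ 2 < 2 * (1 - Real.cos ε) * (‖v‖ * ‖w‖)) :
    fsDist (Projectivization.mk ℂ v hv) (Projectivization.mk ℂ w hw) < ε := by
  rw [fsDist_mk]
  have hv0 : 0 < ‖v‖ := norm_pos_iff.2 hv
  have hw0 : 0 < ‖w‖ := norm_pos_iff.2 hw
  have h1 : ‖v - w‖ ^ 2 = ‖v‖ ^ 2 - 2 * RCLike.re (inner ℂ v w) + ‖w‖ ^ 2 := norm_sub_sq v w
  have h2 : RCLike.re (inner ℂ v w) ≤ ‖inner ℂ v w‖ := RCLike.re_le_norm _
  have h3 : Real.cos ε < ‖inner ℂ v w‖ / (‖v‖ * ‖w‖) := by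
    rw [lt_div_iff₀ (by positivity)]
    nlinarith [sq_nonneg (‖v‖ - ‖w‖)]
  rcases lt_or_ge (‖inner ℂ v w‖ / (‖v‖ * ‖w‖)) 1 with h4 | h4
  · have : Real.arccos (‖inner ℂ v w‖ / (‖v‖ * ‖w‖)) < Real.arccos (Real.cos ε) :=
      Real.arccos_lt_arccos (Real.neg_one_le_cos ε) h3 h4.le
    rwa [Real.arccos_cos hε.le hεπ] at this
  · rw [Real.arccos_eq_zero.2 h4]
    exact hε

/-- In every dimension and for every Hartogs figure `H_n^1(r)` there is a sequence of holomorphic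
maps `Δ^(n+1) → P²` that is equicontinuous on `H_n^1(r)` and not on `Δ^(n+1)`. -/
theorem result : ∀ n : ℕ, 1 ≤ n → ∀ r : ℝ, 0 < r → r < 1 →
    ∃ f : ℕ → (Fin n → ℂ) × ℂ → P2, (∀ j, IsHolomorphic (polydisc n) (f j)) ∧
      IsEquicontinuous (hartogs n r) f ∧ ¬ IsEquicontinuous (polydisc n) f := by
  intro n hn r hr0 hr1
  set i : Fin n := ⟨0, hn⟩ with hi
  set a : ℝ := 1 - r / 2 with ha
  have ha0 : 0 < a := by rw [ha]; linarith
  have hεj : ∀ j : ℕ, (0 : ℝ) < 1 / ((j : ℝ) + 1) := fun j => by positivity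
  refine ⟨fun j p => Projectivization.mk ℂ (vec i a (1 / ((j : ℝ) + 1)) p)
    (vec_ne_zero i a _ (hεj j) p), ?_, ?_, ?_⟩
  · intro j p _
    refine ⟨univ, univ_mem, vec i a (1 / ((j : ℝ) + 1)), ?_, fun z _ => ⟨vec_ne_zero i a _ (hεj j) z, rfl⟩⟩
    apply Differentiable.differentiableOn
    rw [differentiable_euclidean]
    intro k
    fin_cases k
    · show Differentiable ℂ (fun p : (Fin n → ℂ) × ℂ => p.1 i - (a : ℂ))
      fun_prop
    · show Differentiable ℂ (fun p : (Fin n → ℂ) × ℂ => p.2)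
      fun_prop
    · show Differentiable ℂ (fun p : (Fin n → ℂ) × ℂ => (((1 / ((j : ℝ) + 1) : ℝ)) : ℂ))
      fun_prop
  · -- equicontinuity on the Hartogs figure
    intro p hp ε hε
    have hm : 0 < ‖p.1 i - a‖ ^ 2 + ‖p.2‖ ^ 2 := by
      rcases hp with hp | hp
      · have h1 : ‖p.1 i‖ < 1 - r := hp.1 i
        have h2 : 0 < ‖p.1 i - a‖ := by
          rw [norm_pos_iff, sub_ne_zero]
          intro h
          rw [h, Complex.norm_real, Real.norm_eq_abs, abs_of_pos ha0] at h1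
          linarith
        positivity
      · have h2 : 0 < ‖p.2‖ := lt_trans hr0 hp.2.1
        positivity
    set m := Real.sqrt (‖p.1 i - a‖ ^ 2 + ‖p.2‖ ^ 2) with hmdef
    have hm0 : 0 < m := Real.sqrt_pos.2 hm
    set ε' := min ε Real.pi with hε'
    have hε'0 : 0 < ε' := lt_min hε Real.pi_pos
    have hcos : Real.cos ε' < 1 := by
      have := Real.cos_lt_cos_of_nonneg_of_le_pi (le_refl 0) (min_le_right ε Real.pi) hε'0
      simpa using this
    set c := 1 - Real.cos ε' with hc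
    have hc0 : 0 < c := by rw [hc]; linarith
    -- choose δ with 2 δ² < c m² / 2 and 2 δ² < m² / 4
    refine ⟨min (m * Real.sqrt c / 2) (m / 4), lt_min (by positivity) (by positivity), ?_⟩
    intro j z _ hz
    have hz1 : ‖z - p‖ < m * Real.sqrt c / 2 := lt_of_lt_of_le hz (min_le_left _ _)
    have hz2 : ‖z - p‖ < m / 4 := lt_of_lt_of_le hz (min_le_right _ _)
    refine lt_of_lt_of_le (fsDist_lt _ _ hε'0 (min_le_right _ _) ?_) (min_le_left _ _)
    set v := vec i a (1 / ((j : ℝ) + 1)) z with hv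
    set w := vec i a (1 / ((j : ℝ) + 1)) p with hw
    have hsub : ‖v - w‖ ^ 2 ≤ 2 * ‖z - p‖ ^ 2 := norm_sub_vec i a _ z p
    have hwm : m ≤ ‖w‖ := by
      apply Real.sqrt_le_iff.2
      refine ⟨norm_nonneg _, ?_⟩
      rw [hw, norm_sq_vec]
      have := hεj j
      nlinarith
    have hvw : ‖v - w‖ ≤ m / 2 := by
      apply le_of_sq_le_sq _ (by positivity)
      have : ‖z - p‖ ^ 2 ≤ (m / 4) ^ 2 := pow_le_pow_left₀ (norm_nonneg _) hz2.le 2
      nlinarith
    have hvm : m / 2 ≤ ‖v‖ := by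
      have := norm_sub_norm_le w v
      rw [norm_sub_rev] at this
      linarith
    have h1 : ‖z - p‖ ^ 2 < (m * Real.sqrt c / 2) ^ 2 :=
      pow_lt_pow_left₀ hz1 (norm_nonneg _) (by norm_num)
    have h2 : (m * Real.sqrt c / 2) ^ 2 = m ^ 2 * c / 4 := by
      have := Real.sq_sqrt hc0.le
      calc (m * Real.sqrt c / 2) ^ 2 = m ^ 2 * (Real.sqrt c) ^ 2 / 4 := by ring
        _ = _ := by rw [this]
    have h3 : m ^ 2 / 2 ≤ ‖v‖ * ‖w‖ := by nlinarith
    have h4 : 2 * c * (m ^ 2 / 2) ≤ 2 * c * (‖v‖ * ‖w‖) := by gcongr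
    nlinarith
  · -- no equicontinuity at the point `(a, 0, …, 0)`
    intro h
    classical
    set p0 : (Fin n → ℂ) × ℂ := (Pi.single i (a : ℂ), 0) with hp0
    have hp0m : p0 ∈ polydisc n := by
      refine ⟨fun k => ?_, by simp [hp0]⟩
      by_cases hk : k = i
      · subst hk
        simp only [hp0, Pi.single_eq_same, Complex.norm_real, Real.norm_eq_abs, abs_of_pos ha0]
        rw [ha]; linarith
      · simp [hp0, Pi.single_eq_of_ne hk]
    obtain ⟨δ, hδ0, hδ⟩ := h p0 hp0m (Real.pi / 4) (by positivity)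
    set t : ℝ := min (δ / 2) (1 / 2) with ht
    have ht0 : 0 < t := lt_min (by positivity) (by norm_num)
    obtain ⟨j, hj⟩ := exists_nat_one_div_lt ht0
    set z : (Fin n → ℂ) × ℂ := (Pi.single i (a : ℂ), (t : ℂ)) with hz
    have hzm : z ∈ polydisc n := by
      refine ⟨hp0m.1, ?_⟩
      simp only [hz, Complex.norm_real, Real.norm_eq_abs, abs_of_pos ht0]
      exact lt_of_le_of_lt (min_le_right _ _) (by norm_num)
    have hzp : ‖z - p0‖ < δ := by
      have e : z - p0 = (0, (t : ℂ)) := by simp [hz, hp0]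
      rw [e, Prod.norm_def]
      simp only [norm_zero, Complex.norm_real, Real.norm_eq_abs, abs_of_pos ht0]
      rw [max_eq_right ht0.le]
      exact lt_of_le_of_lt (min_le_left _ _) (by linarith)
    have h1 := hδ j z hzm hzp
    set e : ℝ := 1 / ((j : ℝ) + 1) with he
    have he0 : 0 < e := hεj j
    simp only [fsDist_mk] at h1
    have hinner : ‖inner ℂ (vec i a e z) (vec i a e p0)‖ = e ^ 2 := by
      have : inner ℂ (vec i a e z) (vec i a e p0) = ((e ^ 2 : ℝ) : ℂ) := by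
        simp only [vec, hz, hp0, PiLp.inner_apply, Fin.sum_univ_three]
        simp [abs_of_pos he0]
      rw [this, Complex.norm_real, Real.norm_eq_abs, abs_of_nonneg (by positivity)]
    have hn1 : ‖vec i a e p0‖ = e := by
      have : ‖vec i a e p0‖ ^ 2 = e ^ 2 := by
        rw [norm_sq_vec]; simp [hp0]
      exact (pow_left_inj₀ (norm_nonneg _) he0.le (by norm_num)).1 this
    have hn2 : Real.sqrt 2 * e ≤ ‖vec i a e z‖ := by
      apply le_of_sq_le_sq _ (norm_nonneg _)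
      rw [norm_sq_vec, mul_pow, Real.sq_sqrt (by norm_num)]
      simp only [hz, Pi.single_eq_same, sub_self, norm_zero, Complex.norm_real, Real.norm_eq_abs,
        abs_of_pos ht0]
      have : e ^ 2 ≤ t ^ 2 := pow_le_pow_left₀ he0.le hj.le 2
      linarith
    have h2 : ‖inner ℂ (vec i a e z) (vec i a e p0)‖ / (‖vec i a e z‖ * ‖vec i a e p0‖) ≤
        Real.sqrt 2 / 2 := by
      have hs : 0 < Real.sqrt 2 := by positivity
      have hpos : 0 < ‖vec i a e z‖ := lt_of_lt_of_le (by positivity) hn2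
      rw [hinner, hn1, div_le_iff₀ (by positivity)]
      have h22 : Real.sqrt 2 * Real.sqrt 2 = 2 := Real.mul_self_sqrt (by norm_num)
      have : Real.sqrt 2 / 2 * (‖vec i a e z‖ * e) ≥ Real.sqrt 2 / 2 * (Real.sqrt 2 * e * e) := by
        gcongr
      nlinarith
    have h3 : Real.pi / 4 ≤
        Real.arccos (‖inner ℂ (vec i a e z) (vec i a e p0)‖ /
          (‖vec i a e z‖ * ‖vec i a e p0‖)) := by
      have h4 := Real.arccos_le_arccos h2
      have h5 : Real.arccos (Real.sqrt 2 / 2) = Real.pi / 4 := by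
        rw [← Real.cos_pi_div_four, Real.arccos_cos (by positivity)]
        linarith [Real.pi_pos]
      rwa [h5] at h4
    linarith

end Pool.Agent.Results.MP_7ec995_an.HartogsEquicontinuity
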